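import Mathlib

set_option autoImplicit false

namespace Pool.Agent.H.MP_ae4adf_co
open Set Metric MeasureTheory Filter Topology

def IsDisk (T : Set ℂ) : Prop := Nonempty (T ≃ₜ closedBall (0 : ℂ) 1)

def Cong (P T : Set ℂ) : Prop := ∃ g : ℂ ≃ᵢ ℂ, T = g '' P

def Packing (S A : Set (Set ℂ)) : Prop :=
  (∀ T ∈ A, ∃ P ∈ S, Cong P T) ∧ A.Pairwise fun T T' => Disjoint (interior T) (interior T')

def IsPatch (S A : Set (Set ℂ)) : Prop := A.Finite ∧ Packing S A ∧ IsDisk (⋃₀ A)

def Surr (S : Set (Set ℂ)) (k : ℕ) (A : Set (Set ℂ)) : Prop := ∃ P : ℕ → Set (Set ℂ), P 0 = A ∧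
  ∀ i < k, IsPatch S (P (i + 1)) ∧ P i ⊆ P (i + 1) ∧ ⋃₀ P i ⊆ interior (⋃₀ P (i + 1))

def Tiles (S : Set (Set ℂ)) : Prop := ∃ A : Set (Set ℂ), A.Countable ∧ Packing S A ∧ ⋃₀ A = univ

def Acute (U : Set ℂ) (p : ℂ) : Prop := ∃ ε > 0, ∀ u ∈ U, ∀ v ∈ U, dist u p < ε → dist v p < ε →
  u ≠ p → v ≠ p → dist u v ^ 2 < dist u p ^ 2 + dist v p ^ 2

def Good (D : ℝ) (M : ℕ) (T : Set ℂ) : Prop := IsClosed T ∧ T ⊆ closure (interior T) ∧
  (∃ c, ball c (1 / 4) ⊆ T ∧ T ⊆ ball c D) ∧ ∃ N K : Finset ℂ, K.card < N.card ∧ K.card ≤ M ∧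
    (∀ p ∈ N, p ∈ T ∧ p ∈ closure Tᶜ ∧ Acute (interior T)ᶜ p) ∧ ∀ p ∈ T, Acute T p → p ∈ K

lemma Acute.image {U p} (g : ℂ ≃ᵢ ℂ) : Acute (g '' U) (g p) ↔ Acute U p := by
  simp [Acute, g.dist_eq]

lemma Good.cong {D M P T} (h : Good D M P) (c : Cong P T) : Good D M T := by
  classical
  obtain ⟨g, rfl⟩ := c
  obtain ⟨h1, h2, ⟨c, h3, h4⟩, N, K, h5, h6, h7, h8⟩ := h
  have i : interior (g '' P) = g '' interior P := (g.toHomeomorph.image_interior P).symm
  have cl : ∀ U, closure (g '' U) = g '' closure U := fun U => (g.toHomeomorph.image_closure U).symm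
  refine ⟨g.toHomeomorph.isClosed_image.2 h1, by rw [i, cl]; exact image_mono h2,
    ⟨g c, g.image_ball .. ▸ image_mono h3, g.image_ball .. ▸ image_mono h4⟩, N.image g, K.image g,
    by rwa [Finset.card_image_of_injective _ g.injective, Finset.card_image_of_injective _ g.injective],
    Finset.card_image_le.trans h6, ?_, ?_⟩
  · simp only [Finset.forall_mem_image]
    intro p hp
    rw [i, ← image_compl_eq g.bijective, ← image_compl_eq g.bijective, cl, Acute.image]
    exact ⟨mem_image_of_mem _ (h7 p hp).1, mem_image_of_mem _ (h7 p hp).2.1, (h7 p hp).2.2⟩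
  · rintro _ ⟨p, hp, rfl⟩ a
    exact Finset.mem_image_of_mem _ (h8 p hp ((Acute.image g).1 a))

lemma two {U V p} (hU : Acute U p) (hV : Acute V p) (h : U ∪ V = univ) : False := by
  obtain ⟨ε, e, hU⟩ := hU
  obtain ⟨δ, d, hV⟩ := hV
  obtain ⟨t, t0, t1, t2⟩ : ∃ t : ℝ, 0 < t ∧ t < ε ∧ t < δ := ⟨min ε δ / 2, by positivity,
    by linarith [min_le_left ε δ, lt_min e d], by linarith [min_le_right ε δ, lt_min e d]⟩
  have k : ∀ a b : ℂ, ‖a‖ = 1 → ‖b‖ = 1 → 2 ≤ ‖a - b‖ ^ 2 →
      ¬(p + t * a ∈ U ∧ p + t * b ∈ U) ∧ ¬(p + t * a ∈ V ∧ p + t * b ∈ V) := fun a b ha hb hab => by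
    have e : ∀ a : ℂ, ‖a‖ = 1 → dist (p + t * a) p = t := fun a ha => by simp [ha, t0.le]
    have n : ∀ a : ℂ, ‖a‖ = 1 → p + t * a ≠ p := fun a ha h => by
      have := e a ha; rw [h, dist_self] at this; exact t0.ne this
    have e' : dist (p + t * a) (p + t * b) ^ 2 = t ^ 2 * ‖a - b‖ ^ 2 := by
      rw [dist_add_left, dist_eq_norm, ← mul_sub, norm_mul, mul_pow]; simp
    constructor <;> rintro ⟨x, y⟩
    · have := hU _ x _ y (by rwa [e a ha]) (by rwa [e b hb]) (n a ha) (n b hb)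
      rw [e a ha, e b hb, e'] at this; nlinarith [pow_pos t0 2]
    · have := hV _ x _ y (by rwa [e a ha]) (by rwa [e b hb]) (n a ha) (n b hb)
      rw [e a ha, e b hb, e'] at this; nlinarith [pow_pos t0 2]
  have a := k 1 (-1) (by simp) (by simp) (by norm_num [Complex.sq_norm, Complex.normSq_apply])
  have b := k 1 Complex.I (by simp) (by simp) (by norm_num [Complex.sq_norm, Complex.normSq_apply])
  have c := k (-1) Complex.I (by simp) (by simp) (by norm_num [Complex.sq_norm, Complex.normSq_apply])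
  have m : ∀ z, z ∈ U ∨ z ∈ V := fun z => (mem_union _ _ _).1 (h ▸ mem_univ z)
  have := m (p + t * 1)
  have := m (p + t * -1)
  have := m (p + t * Complex.I)
  tauto

lemma no_tiling {D M S} (hS : ∀ P ∈ S, Good D M P) : ¬Tiles S := by
  classical
  rintro ⟨A, -, ⟨h1, h2⟩, h3⟩
  have hg : ∀ T : A, Good D M T := fun T => let ⟨P, a, b⟩ := h1 _ T.2; (hS P a).cong b
  choose g1 g2 g3 N K g4 g5 g6 g7 using hg
  choose c g3 g8 using g3
  have dj : ∀ T T' : A, T ≠ T' → Disjoint (interior T.1) (interior T'.1) := fun T T' h =>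
    h2 T.2 T'.2 (Subtype.coe_ne_coe.2 h)
  have bd : ∀ (R : ℝ) (F : Finset A), 0 ≤ R → (∀ T ∈ F, ‖c T‖ < R) → (F.card : ℝ) ≤ 16 * (R + 1) ^ 2 :=
    fun R F hR hF => by
      have := measure_mono (μ := volume) (show ⋃ T ∈ F, ball (c T) (1 / 4) ⊆ ball 0 (R + 1) from
        iUnion₂_subset fun T hT => ball_subset_ball' (by have := hF T hT; simp; linarith))
      rw [measure_biUnion_finset (fun T _ T' _ h => (dj T T' h).mono
        (interior_maximal (g3 T) isOpen_ball) (interior_maximal (g3 T') isOpen_ball))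
        fun _ _ => measurableSet_ball] at this
      simp only [Complex.volume_ball, Finset.sum_const, nsmul_eq_mul, ← mul_assoc] at this
      have := ENNReal.toReal_mono (by finiteness) ((ENNReal.mul_le_mul_iff_left (by
        simpa using NNReal.pi_ne_zero) (by simp)).1 this)
      simp only [ENNReal.toReal_mul, ENNReal.toReal_pow, ENNReal.toReal_natCast,
        ENNReal.toReal_ofReal (show 0 ≤ R + 1 by linarith),
        ENNReal.toReal_ofReal (show (0 : ℝ) ≤ 1 / 4 by norm_num)] at this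
      linarith
  have fin : ∀ R : ℝ, 0 ≤ R → {T : A | ‖c T‖ < R}.Finite := fun R hR => by
    by_contra h
    obtain ⟨F, hF, e⟩ := Set.Infinite.exists_subset_card_eq h (⌈16 * (R + 1) ^ 2⌉₊ + 1)
    have := bd R F hR fun T hT => hF hT
    have := Nat.le_ceil (16 * (R + 1) ^ 2)
    rw [e] at *; push_cast at *; linarith
  have cov : ∀ z, ∃ T : A, z ∈ T.1 := fun z => by
    obtain ⟨T, a, b⟩ := h3 ▸ mem_univ z
    exact ⟨⟨T, a⟩, b⟩
  have D0 : 0 < D := let ⟨T, h⟩ := cov 0; pos_of_mem_ball (g8 T h)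
  have nb : ∀ T : A, ∀ p ∈ N T, ∃ T' : A, p ∈ T'.1 ∧ p ∈ K T' := fun T p hp => by
    obtain ⟨-, b, a⟩ := g6 T p hp
    have f := (fin (‖p‖ + 1 + D) (by positivity)).subset (inter_subset_left (t := {T' | T' ≠ T}))
    have : p ∈ ⋃ T' ∈ {T : A | ‖c T‖ < ‖p‖ + 1 + D} ∩ {T' | T' ≠ T}, T'.1 := by
      rw [← (f.isClosed_biUnion fun T' _ => g1 T').closure_eq]
      refine closure_mono ?_ (isOpen_ball.inter_closure ⟨mem_ball_self one_pos, b⟩)
      rintro z ⟨z1, z2⟩
      obtain ⟨T', h⟩ := cov z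
      refine mem_biUnion ⟨?_, fun e => z2 (e ▸ h)⟩ h
      have := mem_ball.1 (g8 T' h)
      have := mem_ball.1 z1
      have := dist_triangle4 (c T') z p 0
      simp only [mem_setOf, dist_zero_right, dist_comm (c T') z] at *
      linarith
    obtain ⟨T', ⟨-, n⟩, h⟩ := mem_iUnion₂.1 this
    have s : T'.1 ⊆ (interior T.1)ᶜ := (g2 T').trans (closure_minimal
      (dj T' T n).subset_compl_right isOpen_interior.isClosed_compl)
    obtain ⟨ε, e, a⟩ := a
    exact ⟨T', h, g7 T' p h ⟨ε, e, fun u hu v hv => a u (s hu) v (s hv)⟩⟩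
  let F := fun n : ℕ => (fin ((n + 1) * (2 * D)) (by positivity)).toFinset
  have mF : ∀ n T, T ∈ F n ↔ ‖c T‖ < (n + 1) * (2 * D) := by simp [F]
  have st : ∀ n, (M + 1) * (F n).card ≤ M * (F (n + 1)).card := fun n => by
    have sub : F n ⊆ F (n + 1) := fun T => by simp only [mF]; push_cast; intro; linarith
    have a : ∑ T ∈ F n, (N T).card ≤ ∑ T ∈ F (n + 1), (K T).card := by
      rw [← Finset.card_biUnion]
      · refine (Finset.card_le_card fun p hp => ?_).trans Finset.card_biUnion_le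
        obtain ⟨T, hT, hp⟩ := Finset.mem_biUnion.1 hp
        obtain ⟨T', a, b⟩ := nb T p hp
        refine Finset.mem_biUnion.2 ⟨T', ?_, b⟩
        have := mem_ball.1 (g8 T' a)
        have := mem_ball.1 (g8 T (g6 T p hp).1)
        have := dist_triangle4 (c T') p (c T) 0
        simp only [mF, dist_zero_right, dist_comm (c T') p] at *
        push_cast
        linarith
      · exact fun T _ T' _ h => Finset.disjoint_left.2 fun p a b => two (g6 T p a).2.2 (g6 T' p b).2.2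
          (by rw [← compl_inter, (dj T T' h).inter_eq, compl_empty])
    rw [← Finset.sum_sdiff sub] at a
    have b := Finset.sum_le_card_nsmul (F (n + 1) \ F n) _ M fun T _ => g5 T
    have d := Finset.sum_le_sum fun T (_ : T ∈ F n) => Nat.succ_le_of_lt (g4 T)
    have e := Finset.card_sdiff_add_card_eq_card sub
    simp only [Nat.succ_eq_add_one, Finset.sum_add_distrib, smul_eq_mul, Finset.sum_const, mul_one] at b d
    rw [← e]
    nlinarith
  have p0 : 1 ≤ (F 0).card := by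
    obtain ⟨T, h⟩ := cov 0
    have := mem_ball.1 (g8 T h)
    exact Finset.card_pos.2 ⟨T, by simp only [mF, dist_zero_left] at *; push_cast; linarith⟩
  have M0 : (0 : ℝ) < M := by
    have := st 0
    rcases M with _ | M
    · omega
    · positivity
  have ex : ∀ n, (1 + 1 / M : ℝ) ^ n ≤ (F n).card := fun n => by
    induction n with
    | zero => simpa using p0
    | succ n ih =>
      have : ((M + 1) * (F n).card : ℝ) ≤ M * (F (n + 1)).card := by exact_mod_cast st n
      rw [pow_succ]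
      refine (mul_le_mul_of_nonneg_right ih (by positivity)).trans ?_
      rw [← mul_le_mul_iff_right₀ M0]
      refine le_trans (le_of_eq ?_) this
      field_simp
  have t := (tendsto_pow_const_div_const_pow_of_one_lt 2 (show 1 < 1 + 1 / (M : ℝ) by simpa using M0)).eventually
    (gt_mem_nhds (show (0 : ℝ) < 1 / (16 * (4 * D + 1) ^ 2) by positivity))
  obtain ⟨n, a, b⟩ := (t.and (eventually_ge_atTop 1)).exists
  have := (ex n).trans (bd _ _ (by positivity) fun T => (mF n T).1)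
  rw [div_lt_div_iff₀ (by positivity) (by positivity)] at a
  have b : (1 : ℝ) ≤ n := by exact_mod_cast b
  have : ((n + 1) * (2 * D) + 1) ^ 2 ≤ (n * (4 * D + 1)) ^ 2 := by gcongr; nlinarith
  nlinarith

lemma disk_union {ι : Type} (s : Finset ι) (hs : s.Nonempty) (C : ι → Set ℂ)
    (h : ∀ i ∈ s, Convex ℝ (C i) ∧ IsCompact (C i) ∧ C i ∈ 𝓝 0) : IsDisk (⋃ i ∈ s, C i) := by
  obtain ⟨p, hp⟩ : ∃ p : ℂ → ℝ, p = fun z => s.inf' hs fun i => gauge (C i) z := ⟨_, rfl⟩
  have pc : Continuous p := hp ▸ Continuous.finset_inf'_apply hs fun i hi =>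
    continuous_gauge (h i hi).1 (h i hi).2.2
  have pm : ∀ z, z ∈ ⋃ i ∈ s, C i ↔ p z ≤ 1 := fun z => by
    simp only [hp, mem_iUnion₂, Finset.inf'_le_iff, exists_prop]
    exact exists_congr fun i => and_congr_right fun hi => by
      rw [gauge_le_one_iff_mem_closure (h i hi).1 (h i hi).2.2, (h i hi).2.1.isClosed.closure_eq]
  have ph : ∀ t : ℝ, 0 ≤ t → ∀ z, p (t • z) = t * p z := fun t ht z => by
    simp only [hp, gauge_smul_of_nonneg ht, smul_eq_mul]
    exact (Finset.apply_inf'_eq_inf'_comp hs (t * ·) fun a b => mul_min_of_nonneg a b ht).symm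
  have pp : ∀ z, z ≠ 0 → 0 < p z := fun z hz => by
    simp only [hp, Finset.lt_inf'_iff]
    exact fun i hi => (gauge_pos (absorbent_nhds_zero (h i hi).2.2)
      (NormedSpace.isVonNBounded_of_isBounded _ (h i hi).2.1.isBounded)).2 hz
  have p0 : p 0 = 0 := by simpa using ph 0 le_rfl 0
  have pn : ∀ z, 0 ≤ p z := fun z => by by_cases q : z = 0; exacts [by rw [q, p0], (pp z q).le]
  have nF : ∀ z, ‖(p z / ‖z‖) • z‖ = p z := fun z => by
    by_cases q : z = 0
    · simp [q, p0]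
    · rw [norm_smul, Real.norm_of_nonneg (div_nonneg (pn z) (norm_nonneg z)),
        div_mul_cancel₀ _ (norm_ne_zero_iff.2 q)]
  have nG : ∀ z, p ((‖z‖ / p z) • z) = ‖z‖ := fun z => by
    rw [ph _ (div_nonneg (norm_nonneg z) (pn z))]
    by_cases q : z = 0
    · simp [q]
    · rw [div_mul_cancel₀ _ (pp z q).ne']
  have cF : Continuous fun z : ℂ => (p z / ‖z‖) • z := continuous_iff_continuousAt.2 fun z => by
    by_cases q : z = 0
    · rw [q, ContinuousAt, smul_zero, tendsto_zero_iff_norm_tendsto_zero]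
      simpa only [nF, p0] using pc.tendsto 0
    · exact (pc.continuousAt.div continuous_norm.continuousAt (norm_ne_zero_iff.2 q)).smul
        continuousAt_id
  have := isCompact_iff_compactSpace.1 (s.isCompact_biUnion fun i hi => (h i hi).2.1)
  refine ⟨Continuous.homeoOfEquivCompactToT2 (f := ⟨fun z => ⟨(p z / ‖z.1‖) • z.1, by
    simpa only [mem_closedBall_zero_iff, nF] using (pm _).1 z.2⟩, fun z => ⟨(‖z.1‖ / p z) • z.1, by
      simpa only [pm, nG, mem_closedBall_zero_iff] using z.2⟩, fun z => Subtype.ext ?_,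
      fun z => Subtype.ext ?_⟩) (continuous_induced_rng.2 (cF.comp continuous_subtype_val))⟩ <;>
    by_cases q : z.1 = 0
  · simp [q]
  · have := (pp _ q).ne'
    have := norm_ne_zero_iff.2 q
    simp only [nF, ph _ (div_nonneg (pn z) (norm_nonneg _)), smul_smul]
    rw [show _ * _ = (1 : ℝ) by field_simp, one_smul]
  · simp [q]
  · have := (pp _ q).ne'
    have := norm_ne_zero_iff.2 q
    simp only [nG, norm_smul, Real.norm_of_nonneg (div_nonneg (norm_nonneg z.1) (pn z)), smul_smul]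
    rw [show _ * _ = (1 : ℝ) by field_simp, one_smul]

lemma IsDisk.image {T} (h : IsDisk T) (g : ℂ ≃ₜ ℂ) : IsDisk (g '' T) :=
  ⟨(g.image T).symm.trans h.some⟩

lemma Cong.trans {P T U} (h : Cong P T) (h' : Cong T U) : Cong P U := by
  obtain ⟨g, rfl⟩ := h
  obtain ⟨g', rfl⟩ := h'
  exact ⟨g.trans g', image_image ..⟩

lemma Cong.symm {P T} (h : Cong P T) : Cong T P := by
  obtain ⟨g, rfl⟩ := h
  exact ⟨g.symm, by simp [image_image]⟩

lemma Surr.cong {S k P T} (h : Surr S k {P}) (c : Cong P T) : Surr S k {T} := by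
  obtain ⟨g, rfl⟩ := c
  obtain ⟨Q, h0, h⟩ := h
  have i : ∀ U, interior (g '' U) = g '' interior U := fun U => (g.toHomeomorph.image_interior U).symm
  have u : ∀ A : Set (Set ℂ), ⋃₀ (image g '' A) = g '' ⋃₀ A := fun A => by
    rw [sUnion_image, sUnion_eq_biUnion, image_iUnion₂]
  refine ⟨fun n => image g '' Q n, by simp [h0], fun n hn => ?_⟩
  obtain ⟨⟨h1, ⟨h2, h3⟩, h4⟩, h5, h6⟩ := h n hn
  refine ⟨⟨h1.image _, ⟨?_, ?_⟩, u _ ▸ h4.image g.toHomeomorph⟩, image_mono h5,
    by rw [u, u, i]; exact image_mono h6⟩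
  · rintro _ ⟨T, hT, rfl⟩
    exact (h2 T hT).imp fun P h => ⟨h.1, h.2.trans ⟨g, rfl⟩⟩
  · rintro _ ⟨T, hT, rfl⟩ _ ⟨T', hT', rfl⟩ n
    rw [i, i]
    exact (disjoint_image_iff g.injective).2 (h3 hT hT' fun e => n (e ▸ rfl))

end Pool.Agent.H.MP_ae4adf_co
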