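import Pool.Agent.H.MP_ae4adf_co.A

set_option autoImplicit false

namespace Pool.Agent.H.MP_ae4adf_co
open Set Metric Filter Topology Complex

lemma gl_eq {X : Type} {F : ℤ → X → ℝ} {π : X → ℝ} (h : ∀ (n : ℤ) x, π x = n + 1 → F n x = F (n + 1) x)
    {n : ℤ} {x} (h1 : n ≤ π x) (h2 : π x ≤ n + 1) : F ⌊π x⌋ x = F n x := by
  rcases h2.lt_or_eq with h2 | h2
  · rw [Int.floor_eq_iff.2 ⟨h1, h2⟩]
  · rw [h n x h2, h2]; simp

lemma gl_cont {X : Type} [TopologicalSpace X] {F : ℤ → X → ℝ} {π : X → ℝ} (hπ : Continuous π)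
    (hF : ∀ n, Continuous (F n)) (h : ∀ (n : ℤ) x, π x = n + 1 → F n x = F (n + 1) x) :
    Continuous fun x => F ⌊π x⌋ x :=
  ((locallyFinite_Icc_of_tendsto (f := fun n : ℤ => (n : ℝ)) (g := fun n : ℤ => (n : ℝ) + 1)
    tendsto_intCast_atTop_atTop (tendsto_atBot_add_const_right _ _
      (tendsto_intCast_atBot_iff.2 tendsto_id))).preimage_continuous hπ).continuous
    (eq_univ_of_forall fun x => mem_iUnion.2 ⟨⌊π x⌋, Int.floor_le _, (Int.lt_floor_add_one _).le⟩)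
    (fun _ => isClosed_Icc.preimage hπ) fun n => (hF n).continuousOn.congr fun _ hx => gl_eq h hx.1 hx.2

noncomputable def tt (x : ℝ) : ℝ := max 0 (1 / 4 - 2 * |x - 1 / 2|)
noncomputable def hh (s : ℤ → ℤ) (x : ℝ) : ℝ := s ⌊x⌋ * tt (x - ⌊x⌋)
def brick (σ : ℤ → ℤ → ℤ) (r a b : ℤ) : Set ℂ :=
  {z | z.re ∈ Icc (a : ℝ) b ∧ z.im ∈ Icc (r + hh (σ r) z.re) (r + 1 + hh (σ (r + 1)) z.re)}

lemma tt0 {x : ℝ} (h : x ≤ 3 / 8 ∨ 5 / 8 ≤ x) : tt x = 0 :=
  max_eq_left (by cases abs_cases (x - 1 / 2) <;> cases h <;> linarith)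

lemma hg (s : ℤ → ℤ) (n : ℤ) (x : ℝ) (h : x = n + 1) :
    s n * tt (x - n) = s (n + 1) * tt (x - (n + 1 : ℤ)) := by
  rw [tt0 (.inr (by linarith)), tt0 (.inl (by push_cast; linarith))]; simp

lemma hh_eq {s : ℤ → ℤ} {n : ℤ} {x : ℝ} (h1 : n ≤ x) (h2 : x ≤ n + 1) : hh s x = s n * tt (x - n) :=
  gl_eq (π := id) (F := fun n x => s n * tt (x - n)) (hg s) h1 h2

lemma hh_cont (s : ℤ → ℤ) : Continuous (hh s) :=
  gl_cont (π := id) (F := fun n x => s n * tt (x - n)) continuous_id (fun n => by unfold tt; fun_prop) (hg s)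

lemma hh_bd {s : ℤ → ℤ} (hs : ∀ j, |s j| ≤ 1) (x : ℝ) : -(1 / 4) ≤ hh s x ∧ hh s x ≤ 1 / 4 := by
  have : |(s ⌊x⌋ : ℝ)| ≤ 1 := by exact_mod_cast hs _
  have a : 0 ≤ tt (x - ⌊x⌋) := le_max_left _ _
  have b : tt (x - ⌊x⌋) ≤ 1 / 4 := max_le (by norm_num) (by linarith [abs_nonneg (x - ⌊x⌋ - 1 / 2)])
  rw [abs_le] at this
  unfold hh
  constructor <;> nlinarith

variable {σ : ℤ → ℤ → ℤ}

lemma phi (hσ : ∀ r j, |σ r j| ≤ 1) :
    ∃ Φ : ℂ ≃ₜ ℂ, ∀ r a b : ℤ, brick σ r a b = Φ '' (Icc (a : ℝ) b ×ℂ Icc (r : ℝ) (r + 1)) := by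
  let F : ℤ → ℂ → ℝ := fun r z => z.im + hh (σ r) z.re + (z.im - r) * (hh (σ (r + 1)) z.re - hh (σ r) z.re)
  have g : ∀ (n : ℤ) (z : ℂ), z.im = n + 1 → F n z = F (n + 1) z := fun n z h => by
    simp only [F, h]; push_cast; ring
  obtain ⟨Y, hY⟩ : ∃ Y : ℂ → ℝ, Y = fun z => F ⌊z.im⌋ z := ⟨_, rfl⟩
  have c : Continuous Y := hY ▸ gl_cont continuous_im (fun n => by
    have := hh_cont (σ n); have := hh_cont (σ (n + 1)); fun_prop) g
  have e : ∀ (n : ℤ) (x y : ℝ), n ≤ y → y ≤ n + 1 → Y ⟨x, y⟩ = F n ⟨x, y⟩ := fun n x y a b =>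
    hY ▸ gl_eq (π := im) g a b
  have bd : ∀ x y, y - 1 ≤ Y ⟨x, y⟩ ∧ Y ⟨x, y⟩ ≤ y + 1 := fun x y => by
    have := hh_bd (hσ ⌊y⌋) x
    have := hh_bd (hσ (⌊y⌋ + 1)) x
    have a := Int.floor_le y
    have b := (Int.lt_floor_add_one y).le
    rw [e _ x y a b]
    constructor <;> simp only [F] <;> nlinarith
  have sm : ∀ x, StrictMono fun y => Y ⟨x, y⟩ := fun x y y' l => by
    have := hh_bd (hσ ⌊y⌋) x
    have := hh_bd (hσ (⌊y⌋ + 1)) x
    have a := Int.floor_le y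
    have b := Int.lt_floor_add_one y
    have a' := Int.floor_le y'
    have b' := Int.lt_floor_add_one y'
    simp only [e _ x y a b.le, e _ x y' a' b'.le, F]
    rcases (Int.floor_mono l.le).eq_or_lt with q | q
    · rw [← q]; nlinarith
    · rcases (Int.add_one_le_of_lt q).eq_or_lt with q | q
      · have := hh_bd (hσ (⌊y⌋ + 1 + 1)) x
        rw [← q] at a' b' ⊢; push_cast at *; nlinarith
      · have := hh_bd (hσ ⌊y'⌋) x
        have := hh_bd (hσ (⌊y'⌋ + 1)) x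
        have : (⌊y⌋ + 1 + 1 : ℝ) ≤ ⌊y'⌋ := by exact_mod_cast q
        nlinarith
  have sj : ∀ x w, ∃ y, Y ⟨x, y⟩ = w := fun x w => by
    obtain ⟨y, -, h⟩ := intermediate_value_Icc (f := fun y => Y ⟨x, y⟩) (show w - 1 ≤ w + 1 by linarith)
      (c.comp (f := fun y : ℝ => (⟨x, y⟩ : ℂ)) (by simp only [mk_eq_add_mul_I]; fun_prop)).continuousOn
      (show w ∈ Icc _ _ from ⟨by linarith [bd x (w - 1)], by linarith [bd x (w + 1)]⟩)
    exact ⟨y, h⟩
  have c' : Continuous fun z : ℂ => (⟨z.re, Y z⟩ : ℂ) := by simp only [mk_eq_add_mul_I]; fun_prop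
  refine ⟨IsHomeomorph.homeomorph _ (isHomeomorph_iff_continuous_isClosedMap_bijective.2 ⟨c',
    (isProperMap_iff_tendsto_cocompact.2 ⟨c', tendsto_cocompact_of_tendsto_dist_comp_atTop 0
      (tendsto_atTop_mono (fun z => ?_) (tendsto_atTop_add_const_right (cocompact ℂ) (-1)
        (f := norm) tendsto_norm_cocompact_atTop))⟩).isClosedMap, ?_, fun z => ?_⟩), fun r a b => ?_⟩
  · have := norm_sub_norm_le z ⟨z.re, Y z⟩
    have := norm_le_abs_re_add_abs_im (z - ⟨z.re, Y z⟩)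
    have : |z.im - Y z| ≤ 1 := abs_le.2 (by constructor <;> linarith [bd z.re z.im])
    simp at *
    linarith
  · rintro ⟨x, y⟩ ⟨x', y'⟩ h
    obtain ⟨rfl, h⟩ := mk.inj h
    rw [(sm x).injective h]
  · obtain ⟨y, h⟩ := sj z.re z.im
    exact ⟨⟨z.re, y⟩, by simp [h]⟩
  · have k : ∀ x y, Y ⟨x, y⟩ ∈ Icc (r + hh (σ r) x) (r + 1 + hh (σ (r + 1)) x) ↔ y ∈ Icc (r : ℝ) (r + 1) :=
      fun x y => by
        rw [show r + hh (σ r) x = Y ⟨x, r⟩ by rw [e r] <;> simp [F],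
          show r + 1 + hh (σ (r + 1)) x = Y ⟨x, r + 1⟩ by rw [e r] <;> simp [F]]
        exact and_congr (sm x).le_iff_le (sm x).le_iff_le
    ext ⟨x, w⟩
    obtain ⟨y, rfl⟩ := sj x w
    refine ⟨fun h => ⟨⟨x, y⟩, ⟨h.1, (k x y).1 h.2⟩, rfl⟩, ?_⟩
    rintro ⟨⟨x', y'⟩, h, q⟩
    obtain ⟨rfl, q⟩ := mk.inj q
    exact ⟨h.1, q ▸ (k _ _).2 h.2⟩

lemma lm {s : ℤ → ℤ} {a b : ℤ} (e : ℤ) (hs : ∀ j, |e * s j| ≤ 1) (ab : a < b) {x : ℝ} (hx : x ∈ Icc (a : ℝ) b)
    (n : ∀ j ∈ Finset.Ico a b, e * s j = 1 → x ≠ j + 1 / 2) {ε : ℝ} (he : 0 < ε) :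
    ∃ x' ∈ Icc (a : ℝ) b, x' ≠ x ∧ |x' - x| < ε ∧ e * hh s x ≤ e * hh s x' := by
  obtain ⟨j, j1, j2, j3, j4⟩ : ∃ j : ℤ, a ≤ j ∧ j < b ∧ j ≤ x ∧ x ≤ j + 1 := by
    rcases hx.2.lt_or_eq with q | q
    · exact ⟨⌊x⌋, Int.le_floor.2 hx.1, Int.floor_lt.2 q, Int.floor_le x, (Int.lt_floor_add_one x).le⟩
    · exact ⟨b - 1, by omega, by omega, by simp [q], by simp [q]⟩
  suffices ∃ x' ∈ Icc (j : ℝ) (j + 1), x' ≠ x ∧ |x' - x| < ε ∧
      (e * s j : ℤ) * tt (x - j) ≤ (e * s j : ℤ) * tt (x' - j) by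
    obtain ⟨x', h1, h2, h3, h4⟩ := this
    have : (a : ℝ) ≤ j := by exact_mod_cast j1
    have : (j : ℝ) + 1 ≤ b := by exact_mod_cast j2
    refine ⟨x', ⟨by linarith [h1.1], by linarith [h1.2]⟩, h2, h3, ?_⟩
    rw [hh_eq j3 j4, hh_eq h1.1 h1.2]
    push_cast at h4
    linarith
  have k : ∀ d : ℝ, 0 < d → ∃ δ, 0 < δ ∧ δ < ε ∧ δ ≤ d := fun d hd => ⟨min (ε / 2) d, by positivity,
    by linarith [min_le_left (ε / 2) d], min_le_right _ _⟩
  have m : ∀ u v : ℝ, |u - 1 / 2| ≤ |v - 1 / 2| → tt v ≤ tt u := fun u v h =>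
    max_le_max le_rfl (by linarith)
  have p : ∀ δ, 0 < δ → δ < ε → (x + δ ≠ x ∧ |x + δ - x| < ε) ∧ x - δ ≠ x ∧ |x - δ - x| < ε :=
    fun δ a b => by simp [a.ne', abs_of_pos a, b]
  by_cases q : e * s j = 1
  · rw [q, Int.cast_one]
    simp only [one_mul]
    rcases (n j (by simp [j1, j2]) q).lt_or_gt with l | l
    · obtain ⟨δ, d1, d2, d3⟩ := k _ (sub_pos.2 l)
      exact ⟨x + δ, ⟨by linarith, by linarith⟩, (p δ d1 d2).1.1, (p δ d1 d2).1.2, m _ _ (by
        rw [abs_of_nonpos, abs_of_nonpos] <;> linarith)⟩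
    · obtain ⟨δ, d1, d2, d3⟩ := k _ (sub_pos.2 l)
      exact ⟨x - δ, ⟨by linarith, by linarith⟩, (p δ d1 d2).2.1, (p δ d1 d2).2.2, m _ _ (by
        rw [abs_of_nonneg, abs_of_nonneg] <;> linarith)⟩
  · have : ((e * s j : ℤ) : ℝ) ≤ 0 := by have := abs_le.1 (hs j); exact_mod_cast (by omega)
    obtain ⟨δ, d1, d2, d3⟩ := k (1 / 8) (by norm_num)
    by_cases l : x - j ≤ 1 / 4 ∨ 1 / 2 ≤ x - j ∧ x - j ≤ 3 / 4
    · refine ⟨x + δ, ⟨by linarith, by rcases l with l | l <;> linarith⟩, (p δ d1 d2).1.1,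
        (p δ d1 d2).1.2, mul_le_mul_of_nonpos_left ?_ this⟩
      rcases l with l | l
      · rw [tt0 (.inl (by linarith)), tt0 (.inl (by linarith))]
      · exact m _ _ (by rw [abs_of_nonneg, abs_of_nonneg] <;> linarith)
    · push Not at l
      refine ⟨x - δ, ⟨by linarith, by linarith⟩, (p δ d1 d2).2.1, (p δ d1 d2).2.2,
        mul_le_mul_of_nonpos_left ?_ this⟩
      by_cases l' : 1 / 2 ≤ x - j
      · rw [tt0 (.inr (by linarith [l.2 l'])), tt0 (.inr (by linarith [l.2 l']))]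
      · exact m _ _ (by rw [abs_of_nonpos, abs_of_nonpos] <;> linarith)

lemma dsq (u v p : ℂ) : dist u v ^ 2 < dist u p ^ 2 + dist v p ^ 2 ↔
    0 < (u.re - p.re) * (v.re - p.re) + (u.im - p.im) * (v.im - p.im) := by
  simp only [dist_eq, Complex.sq_norm, normSq_apply, sub_re, sub_im]
  constructor <;> intro <;> nlinarith

lemma nons {T : Set ℂ} {p : ℂ} (e : ℝ) (he : e = 1 ∨ e = -1) {η : ℝ} (hη : 0 < η)
    (h1 : ∀ δ ∈ Icc 0 η, ⟨p.re, p.im - e * δ⟩ ∈ T)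
    (h2 : ∀ ε > 0, ∃ u ∈ T, dist u p < ε ∧ u ≠ p ∧ e * p.im ≤ e * u.im) : ¬Acute T p := by
  rintro ⟨ε, e0, h⟩
  obtain ⟨u, a, b, c, d⟩ := h2 ε e0
  obtain ⟨δ, d0, d1, d2⟩ : ∃ δ, 0 < δ ∧ δ < ε ∧ δ ≤ η :=
    ⟨min (ε / 2) η, by positivity, by linarith [min_le_left (ε / 2) η], min_le_right _ _⟩
  have := (dsq ..).1 (h u a _ (h1 _ ⟨d0.le, d2⟩) b (by
    rw [dist_of_re_eq (by rfl), Real.dist_eq]
    rcases he with rfl | rfl <;> simpa [abs_of_pos d0]) c fun q => by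
      have := congrArg im q
      rcases he with rfl | rfl <;> simp at this <;> linarith)
  simp only at this
  nlinarith

lemma cone {U : Set ℂ} {p : ℂ} (e : ℝ) (he : e = 1 ∨ e = -1)
    (h : ∀ u ∈ U, dist u p < 1 / 8 → 2 * |u.re - p.re| ≤ e * (u.im - p.im)) : Acute U p := by
  refine ⟨1 / 8, by norm_num, fun u hu v hv a b c d => (dsq ..).2 ?_⟩
  have k : ∀ u ∈ U, dist u p < 1 / 8 → u ≠ p → 0 < e * (u.im - p.im) := fun u hu a c => by
    have := h u hu a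
    refine ((by positivity : 0 ≤ 2 * |u.re - p.re|).trans this).lt_of_ne fun q => c (ext ?_ ?_)
    · rw [← q] at this; exact sub_eq_zero.1 (abs_nonpos_iff.1 (by linarith))
    · rcases he with rfl | rfl <;> linarith
  have := mul_le_mul (h u hu a) (h v hv b) (by positivity) (k u hu a c).le
  have := mul_pos (k u hu a c) (k v hv b d)
  have := neg_abs_le ((u.re - p.re) * (v.re - p.re))
  rw [abs_mul] at this
  rcases he with rfl | rfl <;> nlinarith

lemma good (hσ : ∀ r j, |σ r j| ≤ 1) {r a b : ℤ} (ab : a < b) {D : ℕ} (hD : b ≤ a + D)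
    (hc : ∑ j ∈ Finset.Ico a b, σ (r + 1) j < ∑ j ∈ Finset.Ico a b, σ r j) :
    Good (D + 2) (2 * D) (brick σ r a b) := by
  classical
  obtain ⟨Φ, hΦ⟩ := phi hσ
  have ab' : (a : ℝ) + 1 ≤ b := by exact_mod_cast ab
  have hD' : (b : ℝ) ≤ a + D := by exact_mod_cast hD
  have b0 := hh_bd (hσ r)
  have b1 := hh_bd (hσ (r + 1))
  let pt : ℤ × Bool → ℂ := fun q => ⟨q.1 + 1 / 2, if q.2 then r + 1 + hh (σ (r + 1)) (q.1 + 1 / 2)
    else r + hh (σ r) (q.1 + 1 / 2)⟩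
  have inj : pt.Injective := by
    rintro ⟨j, c⟩ ⟨j', c'⟩ h
    obtain ⟨h1, h2⟩ := mk.inj h
    obtain rfl : j = j' := by simpa using h1
    have := b0 (j + 1 / 2)
    have := b1 (j + 1 / 2)
    cases c <;> cases c' <;> simp at h2 ⊢ <;> norm_num at * <;> linarith
  let I := fun e : ℤ => (Finset.Ico a b ×ˢ Finset.univ).filter fun q : ℤ × Bool =>
    if q.2 then σ (r + 1) q.1 = e else σ r q.1 = -e
  have cI : ∀ e, ((I e).card : ℤ) = ∑ j ∈ Finset.Ico a b,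
      ((if σ (r + 1) j = e then 1 else 0) + if σ r j = -e then 1 else 0) := fun e => by
    simp only [I, Finset.card_filter, Finset.sum_product, Fintype.sum_bool]
    simp
  have op : IsOpen {z : ℂ | z.re ∈ Ioo (a : ℝ) b ∧
      z.im ∈ Ioo (r + hh (σ r) z.re) (r + 1 + hh (σ (r + 1)) z.re)} := by
    have := hh_cont (σ r)
    have := hh_cont (σ (r + 1))
    simp only [mem_Ioo, setOf_and]
    refine .inter (.inter ?_ ?_) (.inter ?_ ?_) <;> exact isOpen_lt (by fun_prop) (by fun_prop)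
  have sb := interior_maximal (s := brick σ r a b) (fun z h => ⟨Ioo_subset_Icc_self h.1,
    Ioo_subset_Icc_self h.2⟩) op
  refine ⟨hΦ .. ▸ Φ.isClosed_image.2 (isClosed_Icc.reProdIm isClosed_Icc), ?_,
    ⟨⟨a + 1 / 2, r + 1 / 2⟩, fun z hz => ?_, fun z hz => ?_⟩, (I (-1)).image pt, (I 1).image pt, ?_,
    Finset.card_image_le.trans ((Finset.card_filter_le _ _).trans (by simp; omega)), ?_, ?_⟩
  · rw [hΦ, ← Φ.image_interior, ← Φ.image_closure, interior_reProdIm, closure_reProdIm, interior_Icc,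
      interior_Icc, closure_Ioo (by linarith), closure_Ioo (by linarith)]
  · have := abs_lt.1 ((abs_re_le_norm _).trans_lt (mem_ball_iff_norm.1 hz))
    have := abs_lt.1 ((abs_im_le_norm _).trans_lt (mem_ball_iff_norm.1 hz))
    have := b0 z.re
    have := b1 z.re
    simp only [sub_re, sub_im] at *
    refine ⟨⟨?_, ?_⟩, ?_, ?_⟩ <;> linarith
  · obtain ⟨⟨h1, h2⟩, h3, h4⟩ := hz
    have := b0 z.re
    have := b1 z.re
    refine mem_ball_iff_norm.2 ((norm_le_abs_re_add_abs_im _).trans_lt ?_)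
    simp only [sub_re, sub_im]
    cases abs_cases (z.re - (a + 1 / 2)) <;> cases abs_cases (z.im - (r + 1 / 2)) <;> linarith
  · rw [Finset.card_image_of_injective _ inj, Finset.card_image_of_injective _ inj, ← @Nat.cast_lt ℤ,
      cI, cI, ← sub_pos, ← Finset.sum_sub_distrib]
    rw [← sub_pos, ← Finset.sum_sub_distrib] at hc
    refine hc.trans_eq (Finset.sum_congr rfl fun j _ => ?_)
    have := abs_le.1 (hσ r j)
    have := abs_le.1 (hσ (r + 1) j)
    split_ifs <;> omega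
  · simp only [Finset.forall_mem_image, I, Finset.mem_filter, Finset.mem_product, Finset.mem_Ico]
    rintro ⟨j, c⟩ ⟨⟨⟨j1, j2⟩, -⟩, h⟩
    have j1 : (a : ℝ) ≤ j := by exact_mod_cast j1
    have j2 : (j : ℝ) + 1 ≤ b := by exact_mod_cast j2
    have := b0 (j + 1 / 2)
    have := b1 (j + 1 / 2)
    have t : ∀ (s : ℤ → ℤ) (x : ℝ), |x - (j + 1 / 2)| < 1 / 8 →
        hh s x = s j * (1 / 4 - 2 * |x - (j + 1 / 2)|) := fun s x hx => by
      rw [hh_eq (n := j) (by linarith [abs_lt.1 hx]) (by linarith [abs_lt.1 hx]), tt, sub_sub,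
        max_eq_right (by linarith)]
    have t0 := fun s => t s (j + 1 / 2) (by simp)
    refine ⟨⟨⟨by simp only [pt]; linarith, by simp only [pt]; linarith⟩, by
      cases c <;> simp only [pt, if_true, if_false, Bool.false_eq_true] <;> constructor <;> linarith⟩,
      Metric.mem_closure_iff.2 fun ε e => ⟨⟨(pt (j, c)).re, (pt (j, c)).im + if c then ε / 2 else -(ε / 2)⟩,
        fun q => ?_, ?_⟩, cone (if c then 1 else -1) (by cases c <;> simp) fun u hu hd => ?_⟩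
    · have := q.2.1
      have := q.2.2
      cases c <;> simp only [pt, if_true, if_false, Bool.false_eq_true] at * <;> linarith
    · rw [dist_of_re_eq (by rfl), Real.dist_eq]
      cases c <;> simp [abs_of_pos (half_pos e), e]
    · have d1 := (abs_re_le_norm _).trans_lt (mem_ball_iff_norm.1 hd)
      have d2 := abs_lt.1 ((abs_im_le_norm _).trans_lt (mem_ball_iff_norm.1 hd))
      have := b0 u.re
      have := b1 u.re
      have d3 := abs_lt.1 d1
      refine not_lt.1 fun q => hu (sb ?_)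
      cases c <;> simp only [pt, if_true, if_false, Bool.false_eq_true, sub_re, sub_im] at h d1 d2 d3 q
      · have e1 := t0 (σ r)
        have e2 := t (σ r) _ d1
        rw [h, sub_self, abs_zero] at e1
        rw [h] at e2
        push_cast at e1 e2
        exact ⟨⟨by linarith, by linarith⟩, by linarith, by linarith⟩
      · have e1 := t0 (σ (r + 1))
        have e2 := t (σ (r + 1)) _ d1
        rw [h, sub_self, abs_zero] at e1
        rw [h] at e2
        push_cast at e1 e2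
        exact ⟨⟨by linarith, by linarith⟩, by linarith, by linarith⟩
  · intro p hp ac
    by_contra n
    have n : ∀ j c, j ∈ Finset.Ico a b → (if c then σ (r + 1) j = 1 else σ r j = -1) → pt (j, c) ≠ p :=
      fun j c h1 h2 e => n (Finset.mem_image.2 ⟨(j, c), by simpa [I, -Finset.mem_Ico] using ⟨h1, by
        simpa using h2⟩, e⟩)
    have := b0 p.re
    have := b1 p.re
    have ed : ∀ (s : ℤ → ℤ) (c : ℝ), p.im = c + hh s p.re → ∀ ε > 0, ∃ δ > 0, ∀ x, |x - p.re| < δ →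
        dist (⟨x, c + hh s x⟩ : ℂ) p < ε := fun s c h ε e => by
      have := hh_cont s
      have : Continuous fun x : ℝ => (⟨x, c + hh s x⟩ : ℂ) := by simp only [mk_eq_add_mul_I]; fun_prop
      simpa only [← h, Real.dist_eq, eta] using Metric.continuous_iff.1 this p.re ε e
    rcases hp.2.2.eq_or_lt with q | q
    · refine nons (T := brick σ r a b) 1 (.inl rfl) (show (0 : ℝ) < 1 / 4 by norm_num) (fun δ h => ⟨hp.1,
        by simp only; linarith [h.2], by simp only; linarith [h.1]⟩) (fun ε e => ?_) ac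
      obtain ⟨δ, d, h⟩ := ed _ _ q ε e
      obtain ⟨x, x1, x2, x3, x4⟩ := lm 1 (by simpa using hσ (r + 1)) ab hp.1 (fun j hj h e =>
        n j true hj (by simpa using h) (ext e.symm (by simp only [pt, if_true, ← e, ← q]))) d
      have := b0 x
      have := b1 x
      exact ⟨_, ⟨x1, by simp only; linarith, le_rfl⟩, h x x3, fun e => x2 (congrArg re e),
        by simp at x4 ⊢; linarith⟩
    rcases hp.2.1.eq_or_lt with q' | q'
    · refine nons (T := brick σ r a b) (-1) (.inr rfl) (show (0 : ℝ) < 1 / 4 by norm_num) (fun δ h => ⟨hp.1,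
        by simp only; linarith [h.1], by simp only; linarith [h.2]⟩) (fun ε e => ?_) ac
      obtain ⟨δ, d, h⟩ := ed _ _ q'.symm ε e
      obtain ⟨x, x1, x2, x3, x4⟩ := lm (-1) (by simpa using hσ r) ab hp.1 (fun j hj h e =>
        n j false hj (by simp; omega) (ext e.symm (by simp [pt, ← q', e]))) d
      have := b0 x
      have := b1 x
      exact ⟨_, ⟨x1, le_rfl, by simp only; linarith⟩, h x x3, fun e => x2 (congrArg re e),
        by simp at x4 ⊢; linarith⟩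
    · refine nons (T := brick σ r a b) 1 (.inl rfl) (sub_pos.2 q') (fun δ h => ⟨hp.1,
        by simp only; linarith [h.2], by simp only; linarith [h.1]⟩) (fun ε e => ?_) ac
      obtain ⟨δ, d0, d1, d2⟩ : ∃ δ, 0 < δ ∧ δ < ε ∧ δ ≤ r + 1 + hh (σ (r + 1)) p.re - p.im :=
        ⟨min (ε / 2) _, lt_min (half_pos e) (sub_pos.2 q), (min_le_left _ _).trans_lt (half_lt_self e),
          min_le_right _ _⟩
      exact ⟨⟨p.re, p.im + δ⟩, ⟨hp.1, by simp only; linarith, by simp only; linarith⟩, by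
        rw [dist_of_re_eq (by rfl), Real.dist_eq]; simpa [abs_of_pos d0],
        fun e => by simpa [d0.ne'] using congrArg im e, by simp [d0.le]⟩

lemma shift {r a b r' a' : ℤ} (h : ∀ j, a ≤ j → j < b → σ r' (j + a') = σ r j ∧
    σ (r' + 1) (j + a') = σ (r + 1) j) (ab : a < b) : Cong (brick σ r a b) (brick σ r' (a + a') (b + a')) := by
  have k : ∀ s s' : ℤ → ℤ, (∀ j, a ≤ j → j < b → s' (j + a') = s j) → ∀ x ∈ Icc (a : ℝ) b,
      hh s' (x + a') = hh s x := fun s s' h x hx => by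
    obtain ⟨j, j1, j2, j3, j4⟩ : ∃ j : ℤ, a ≤ j ∧ j < b ∧ j ≤ x ∧ x ≤ j + 1 := by
      rcases hx.2.lt_or_eq with q | q
      · exact ⟨⌊x⌋, Int.le_floor.2 hx.1, Int.floor_lt.2 q, Int.floor_le x, (Int.lt_floor_add_one x).le⟩
      · exact ⟨b - 1, by omega, by omega, by simp [q], by simp [q]⟩
    rw [hh_eq j3 j4, hh_eq (n := j + a') (by simpa) (by push_cast; linarith), h j j1 j2]
    simp
  refine ⟨IsometryEquiv.addRight ⟨a', r' - r⟩, Set.ext fun z => ?_⟩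
  obtain ⟨z, rfl⟩ := (IsometryEquiv.addRight (⟨a', r' - r⟩ : ℂ)).surjective z
  rw [(IsometryEquiv.injective _).mem_set_image]
  simp only [brick, IsometryEquiv.addRight_apply, mem_setOf, add_re, add_im, mem_Icc, Int.cast_add,
    add_le_add_iff_right]
  refine and_congr_right fun hx => ?_
  rw [k _ _ (fun j p q => (h j p q).1) _ hx, k _ _ (fun j p q => (h j p q).2) _ hx]
  constructor <;> rintro ⟨_, _⟩ <;> constructor <;> linarith

end Pool.Agent.H.MP_ae4adf_co
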