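import Pool.Agent.H.MP_ae4adf_co.B

set_option autoImplicit false

namespace Pool.Agent.H.MP_ae4adf_co
open Set Metric Filter Topology Complex

lemma disk_union' {ι : Type} (s : Finset ι) (hs : s.Nonempty) (C : ι → Set ℂ) (c : ℂ)
    (h : ∀ i ∈ s, Convex ℝ (C i) ∧ IsCompact (C i) ∧ C i ∈ 𝓝 c) : IsDisk (⋃ i ∈ s, C i) := by
  have := (disk_union s hs (fun i => Homeomorph.addRight c ⁻¹' C i) fun i hi =>
    ⟨(h i hi).1.translate_preimage_left c, (Homeomorph.isCompact_preimage _).2 (h i hi).2.1,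
      (Homeomorph.addRight c).continuous.continuousAt.preimage_mem_nhds (by simpa using (h i hi).2.2)⟩).image
    (Homeomorph.addRight c)
  rwa [← preimage_iUnion₂, image_preimage_eq _ (Homeomorph.surjective _)] at this

lemma config {σ bd fl : ℤ → ℤ → ℤ} (hσ : ∀ r j, |σ r j| ≤ 1) {D : ℤ}
    (h1 : ∀ r k, bd r k < bd r (k + 1)) (h2 : ∀ r k, bd r (k + 1) ≤ bd r k + D)
    (h3 : ∀ r x, bd r (fl r x) ≤ x ∧ x < bd r (fl r x + 1)) {S : Set (Set ℂ)} {n : ℕ} {r0 k0 : ℤ}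
    (hS : ∀ r k, bd r0 k0 - (2 * n + 1) * D ≤ bd r k → bd r (k + 1) ≤ bd r0 (k0 + 1) + (2 * n + 1) * D →
      ∃ P ∈ S, Cong P (brick σ r (bd r k) (bd r (k + 1)))) :
    IsPatch S {brick σ r0 (bd r0 k0) (bd r0 (k0 + 1))} ∧
      Surr S n {brick σ r0 (bd r0 k0) (bd r0 (k0 + 1))} := by
  obtain ⟨Φ, hΦ⟩ := phi hσ
  have sm : ∀ r, StrictMono (bd r) := fun r => strictMono_int_of_lt_succ (h1 r)
  have D0 : 0 < D := by linarith [h1 0 0, h2 0 0]
  have u : ∀ r x k, bd r k ≤ x → x < bd r (k + 1) → fl r x = k := fun r x k a b => by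
    have := (sm r).lt_iff_lt.1 (a.trans_lt (h3 r x).2)
    have := (sm r).lt_iff_lt.1 ((h3 r x).1.trans_lt b)
    omega
  obtain ⟨κ, hκ⟩ : ∃ κ : ℕ → ℤ → ℤ, ∀ i r, κ i r = fl r (bd r0 k0 - 2 * D * i + D * |r - r0|) :=
    ⟨_, fun _ _ => rfl⟩
  obtain ⟨μ, hμ⟩ : ∃ μ : ℕ → ℤ → ℤ, ∀ i r, μ i r = fl r (bd r0 (k0 + 1) + 2 * D * i - D * |r - r0| - 1) :=
    ⟨_, fun _ _ => rfl⟩
  have f : ∀ i r, (bd r (κ i r) ≤ bd r0 k0 - 2 * D * i + D * |r - r0| ∧
      bd r0 k0 - 2 * D * i + D * |r - r0| - D < bd r (κ i r)) ∧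
      bd r0 (k0 + 1) + 2 * D * i - D * |r - r0| ≤ bd r (μ i r + 1) ∧
      bd r (μ i r + 1) < bd r0 (k0 + 1) + 2 * D * i - D * |r - r0| + D := fun i r => by
    have a := h3 r (bd r0 k0 - 2 * D * i + D * |r - r0|)
    have b := h3 r (bd r0 (k0 + 1) + 2 * D * i - D * |r - r0| - 1)
    rw [← hκ] at a
    rw [← hμ] at b
    have := h2 r (κ i r)
    have := h2 r (μ i r)
    omega
  have mo : ∀ (i i' : ℕ) r r', |r' - r0| + 1 + 2 * (i : ℤ) ≤ |r - r0| + 2 * (i' : ℤ) →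
      (bd r' (κ i' r') : ℝ) < bd r (κ i r) ∧ (bd r (μ i r + 1) : ℝ) < bd r' (μ i' r' + 1) :=
    fun i i' r r' h => by
      have := f i r
      have := f i' r'
      have := mul_le_mul_of_nonneg_left h D0.le
      constructor <;> norm_cast <;> linarith
  have ce : ∀ (i : ℕ) r, |r - r0| ≤ i → bd r (κ i r) ≤ bd r0 k0 ∧ bd r0 (k0 + 1) ≤ bd r (μ i r + 1) :=
    fun i r h => by
      have := f i r
      have := mul_le_mul_of_nonneg_left h D0.le
      have : 0 ≤ D * i := by positivity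
      constructor <;> linarith
  let P := fun i : ℕ => (fun q : ℤ × ℤ => brick σ q.1 (bd q.1 q.2) (bd q.1 (q.2 + 1))) ''
    {q | |q.1 - r0| ≤ i ∧ κ i q.1 ≤ q.2 ∧ q.2 ≤ μ i q.1}
  let U := fun i : ℕ => {z : ℂ | ∃ r : ℤ, |r - r0| ≤ i ∧ z.re ∈ Icc (bd r (κ i r) : ℝ) (bd r (μ i r + 1)) ∧
    z.im ∈ Icc (r : ℝ) (r + 1)}
  have pu : ∀ i, ⋃₀ P i = Φ '' U i := fun i => by
    simp only [P, hΦ, sUnion_image, ← image_iUnion₂]
    congr 1
    ext z
    simp only [mem_iUnion₂, mem_reProdIm, mem_setOf, U]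
    refine ⟨fun ⟨⟨r, k⟩, ⟨a, b, c⟩, d, e⟩ => ⟨r, a, ⟨le_trans (by exact_mod_cast (sm r).monotone b) d.1,
      d.2.trans (by exact_mod_cast (sm r).monotone (add_le_add_left c 1))⟩, e⟩, fun ⟨r, a, b, c⟩ => ?_⟩
    rcases b.2.lt_or_eq with q | q
    · have := h3 r ⌊z.re⌋
      refine ⟨(r, fl r ⌊z.re⌋), ⟨a, ?_, ?_⟩, ⟨Int.le_floor.1 this.1, (Int.floor_lt.1 this.2).le⟩, c⟩
      · exact Int.le_of_lt_add_one ((sm r).lt_iff_lt.1 ((Int.le_floor.2 b.1).trans_lt this.2))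
      · exact Int.le_of_lt_add_one ((sm r).lt_iff_lt.1 (this.1.trans_lt (Int.floor_lt.2 q)))
    · refine ⟨(r, μ i r), ⟨a, ?_, le_rfl⟩, ⟨q ▸ by exact_mod_cast (h1 _ _).le, q.le⟩, c⟩
      exact Int.le_of_lt_add_one ((sm r).lt_iff_lt.1 (((ce i r a).1.trans_lt (h1 _ _)).trans_le (ce i r a).2))
  have p0 : P 0 = {brick σ r0 (bd r0 k0) (bd r0 (k0 + 1))} := by
    have a : κ 0 r0 = k0 := by rw [hκ]; exact u _ _ _ (by simp) (by simpa using h1 _ _)
    have b : μ 0 r0 = k0 := by rw [hμ]; exact u _ _ _ (by have := h1 r0 k0; simp; omega) (by simp)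
    rw [← image_singleton (f := fun q : ℤ × ℤ => brick σ q.1 (bd q.1 q.2) (bd q.1 (q.2 + 1))) (a := (r0, k0))]
    refine congrArg (image _) (Set.ext fun ⟨r, k⟩ => ?_)
    simp only [Nat.cast_zero, abs_nonpos_iff, sub_eq_zero, mem_setOf, mem_singleton_iff, Prod.mk.injEq]
    exact and_congr_right fun e => by subst e; omega
  have pa : ∀ i ≤ n, IsPatch S (P i) := fun i hi => by
    refine ⟨.image _ (((finite_Icc (r0 - i) (r0 + i)).biUnion fun r _ => (finite_Icc (κ i r) (μ i r)).image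
      (Prod.mk r)).subset fun q h => mem_biUnion (x := q.1) (by have := abs_le.1 h.1; simp; omega)
        ⟨_, h.2, rfl⟩), ⟨?_, ?_⟩, ?_⟩
    · rintro _ ⟨⟨r, k⟩, ⟨a, b, c⟩, rfl⟩
      have := f i r
      have := (sm r).monotone b
      have := (sm r).monotone (add_le_add_left c 1)
      have : 0 ≤ D * |r - r0| := by positivity
      have : D * i ≤ D * n := by gcongr
      exact hS r k (by linarith) (by linarith)
    · rintro _ ⟨⟨r, k⟩, -, rfl⟩ _ ⟨⟨r', k'⟩, -, rfl⟩ e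
      simp only [hΦ, ← Φ.image_interior, disjoint_image_iff Φ.injective, interior_reProdIm, interior_Icc]
      refine disjoint_left.2 fun z a b => e ?_
      obtain rfl : r = r' := (Int.floor_eq_iff.2 ⟨a.2.1.le, a.2.2⟩).symm.trans
        (Int.floor_eq_iff.2 ⟨b.2.1.le, b.2.2⟩)
      rw [← u r _ k (Int.le_floor.2 a.1.1.le) (Int.floor_lt.2 a.1.2),
        u r _ k' (Int.le_floor.2 b.1.1.le) (Int.floor_lt.2 b.1.2)]
    rw [pu]
    refine IsDisk.image ?_ _
    have : U i = ⋃ r ∈ Finset.Icc (r0 - i) (r0 + i), Icc (bd r (κ i r) : ℝ) (bd r (μ i r + 1)) ×ℂ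
        Icc ((min r r0 : ℤ) : ℝ) ((max r r0 : ℤ) + 1) := by
      ext z
      simp only [mem_iUnion₂, mem_reProdIm, mem_setOf, U, Finset.mem_Icc, exists_prop]
      refine ⟨fun ⟨r, a, b, c⟩ => ⟨r, by have := abs_le.1 a; omega, b, le_trans (by simp) c.1,
        c.2.trans (by simp)⟩, fun ⟨r, a, b, c⟩ => ?_⟩
      obtain ⟨j, j1, j2, j3⟩ : ∃ j : ℤ, min r r0 ≤ j ∧ j ≤ max r r0 ∧ z.im ∈ Icc (j : ℝ) (j + 1) := by
        rcases c.2.lt_or_eq with q | q
        · exact ⟨⌊z.im⌋, Int.le_floor.2 c.1, Int.le_of_lt_add_one (Int.floor_lt.2 (by simpa using q)),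
            Int.floor_le _, (Int.lt_floor_add_one _).le⟩
        · exact ⟨_, min_le_max, le_rfl, by rw [q]; simp, q.le⟩
      refine ⟨j, abs_le.2 (by omega), ?_, j3⟩
      by_cases e : j = r
      · exact e ▸ b
      · have := mo i i r j (by cases abs_cases (j - r0) <;> cases abs_cases (r - r0) <;> omega)
        exact ⟨this.1.le.trans b.1, b.2.trans this.2.le⟩
    rw [this]
    refine disk_union' _ (by simp; omega) _ ⟨bd r0 k0 + 1 / 2, r0 + 1 / 2⟩ fun r hr => ⟨?_,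
      isCompact_Icc.reProdIm isCompact_Icc, mem_interior_iff_mem_nhds.1 ?_⟩
    · exact ((convex_Icc _ _).linear_preimage reLm).inter ((convex_Icc _ _).linear_preimage imLm)
    · have := ce i r (abs_le.2 (by simp at hr; omega))
      have a : (bd r (κ i r) : ℝ) ≤ bd r0 k0 := by exact_mod_cast this.1
      have b : (bd r0 k0 : ℝ) + 1 ≤ bd r (μ i r + 1) := by exact_mod_cast (h1 _ _).trans_le this.2
      have c : ((min r r0 : ℤ) : ℝ) ≤ r0 := by simp
      have d : (r0 : ℝ) ≤ (max r r0 : ℤ) := by simp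
      rw [interior_reProdIm, interior_Icc, interior_Icc]
      refine ⟨⟨?_, ?_⟩, ?_, ?_⟩ <;> simp only <;> linarith
  refine ⟨p0 ▸ pa 0 n.zero_le, P, p0, fun i hi => ⟨pa _ hi, image_mono fun q h => ?_, ?_⟩⟩
  · have := mo i (i + 1) q.1 q.1 (by push_cast; omega)
    have a := (sm _).lt_iff_lt.1 (Int.cast_lt.1 this.1)
    have b := (sm _).lt_iff_lt.1 (Int.cast_lt.1 this.2)
    exact ⟨h.1.trans (by simp), by linarith [h.2.1], by linarith [h.2.2]⟩
  · rw [pu, pu, ← Φ.image_interior]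
    refine image_mono fun z ⟨r, a, b, c⟩ => mem_interior_iff_mem_nhds.2 ?_
    have k : ∀ j, |j - r| ≤ 1 → ∀ᶠ w in 𝓝 z, w.re ∈ Icc (bd j (κ (i + 1) j) : ℝ) (bd j (μ (i + 1) j + 1)) :=
      fun j hj => by
        have := mo i (i + 1) r j (by have := abs_sub_le j r r0; push_cast; omega)
        exact continuous_re.continuousAt.preimage_mem_nhds
          (Icc_mem_nhds (this.1.trans_le b.1) (b.2.trans_lt this.2))
    filter_upwards [k (r - 1) (by simp), k r (by simp), k (r + 1) (by simp),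
      continuous_im.continuousAt.preimage_mem_nhds (Ioo_mem_nhds (show (r : ℝ) - 1 < z.im by linarith [c.1])
        (show z.im < r + 2 by linarith [c.2]))] with w w1 w2 w3 w4
    have a := abs_le.1 a
    rcases le_total w.im r with q | q
    · exact ⟨r - 1, abs_le.2 (by push_cast; omega), w1, by simpa using w4.1.le, by simpa⟩
    rcases le_total w.im (r + 1) with q' | q'
    · exact ⟨r, abs_le.2 (by push_cast; omega), w2, q, q'⟩
    · exact ⟨r + 1, abs_le.2 (by push_cast; omega), w3, by simpa, by push_cast; linarith [w4.2]⟩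

end Pool.Agent.H.MP_ae4adf_co
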