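import Pool.Agent.H.MP_ae4adf_co.C

set_option autoImplicit false

namespace Pool.Agent.H.MP_ae4adf_co
open Finset

def w (L : ℤ) : ℤ := 4 * L ^ 2 + 6 * L + 1
def fx (L r x : ℤ) : ℤ :=
  if r % 4 = 0 then 0 else if r % 4 = 1 then 2 * L + 3 - if 2 * L ∣ x - 0 then w L else 0
  else if r % 4 = 2 then 2 * L + 2 + (if x % 2 = 0 ∧ 1 ≤ x / 2 % L ∧ x / 2 % L ≤ x / 2 / L then w L else 0) -
    if x % 2 = 1 ∧ x / 2 % L ≤ x / 2 / L then w L else 0
  else 2 * L + 1 - if 2 * (L + 1) ∣ x - 1 then w L else 0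
def W (L : ℤ) : ℤ := w L + 2 * L + 3
def sg (L r s : ℤ) : ℤ := if s % W L < |fx L r (s / W L)| then (fx L r (s / W L)).sign else 0
def per (L r : ℤ) : ℤ := if r % 4 = 0 then 2 * L else if r % 4 = 3 then 2 * (L + 1) else 2
def off (r : ℤ) : ℤ := if r % 4 < 2 then 0 else 1
def bd (L r k : ℤ) : ℤ := W L * (per L r * k + off r)

variable {L : ℤ}

lemma w0 (h : 0 < L) : 0 < w L := by unfold w; positivity
lemma W0 (h : 0 < L) : 0 < W L := by have := w0 h; unfold W; omega

lemma sg_le (r s : ℤ) : |sg L r s| ≤ 1 := by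
  unfold sg
  split_ifs
  · rcases lt_trichotomy (fx L r (s / W L)) 0 with h | h | h <;>
      simp [h, Int.sign_eq_one_of_pos, Int.sign_eq_neg_one_of_neg]
  · simp

lemma sum_sg (h : 0 < L) (r x : ℤ) (m : ℕ) :
    ∑ j ∈ Ico (W L * x) (W L * (x + m)), sg L r j = ∑ y ∈ Ico x (x + m), fx L r y := by
  have W0 := W0 h
  induction m with
  | zero => simp
  | succ m ih =>
    push_cast
    have sc : ∀ (f : ℤ → ℤ) a b c, a ≤ b → b ≤ c →
        ∑ j ∈ Ico a c, f j = ∑ j ∈ Ico a b, f j + ∑ j ∈ Ico b c, f j := fun f a b c p q => by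
      rw [← sum_union (Ico_disjoint_Ico_consecutive ..), Ico_union_Ico_eq_Ico p q]
    rw [← add_assoc, sc _ _ (W L * (x + m)) _ (by nlinarith) (by nlinarith), ih,
      sc _ _ (x + m) (x + m + 1) (by omega) (by omega), show Ico (x + m) (x + m + 1) = {x + m} by
        ext; simp; omega, sum_singleton]
    congr 1
    generalize x + m = y
    have b : |fx L r y| ≤ W L := by
      have := w0 h
      unfold fx W
      split_ifs <;> rw [abs_le] <;> omega
    rw [sum_congr rfl (g := fun j => if j < W L * y + |fx L r y| then (fx L r y).sign else 0)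
      fun j hj => by
        obtain ⟨h1, h2⟩ := (Int.ediv_emod_unique W0 (a := j) (q := y) (r := j - W L * y)).2
          ⟨by ring, by linarith [mem_Ico.1 hj], by linarith [mem_Ico.1 hj]⟩
        simp only [sg, h1, h2, sub_lt_iff_lt_add'], ← sum_filter, Ico_filter_lt,
      min_eq_right (by linarith), sum_const]
    simp [mul_comm |_|, Int.sign_mul_abs]

lemma sh (h : 0 < L) {r r' k k' : ℤ} (e : r' % 4 = r % 4) (hf : ∀ y, per L r * k + off r ≤ y →
    y < per L r * (k + 1) + off r → fx L r (y + per L r * (k' - k)) = fx L r y ∧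
      fx L (r + 1) (y + per L r * (k' - k)) = fx L (r + 1) y) :
    Cong (brick (sg L) r (bd L r k) (bd L r (k + 1))) (brick (sg L) r' (bd L r' k') (bd L r' (k' + 1))) := by
  have W0 := W0 h
  have p : 0 < per L r := by unfold per; split_ifs <;> omega
  have b : ∀ j, bd L r' (k' + j) = bd L r (k + j) + W L * (per L r * (k' - k)) := fun j => by
    simp only [bd, per, off, e]; ring
  have e' : (r' + 1) % 4 = (r + 1) % 4 := by omega
  have := b 0
  simp only [add_zero] at this
  rw [this, b 1]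
  refine shift (fun j j1 j2 => ?_) (by unfold bd; nlinarith [mul_pos W0 p])
  have := hf (j / W L) (Int.le_ediv_of_mul_le W0 (by rwa [mul_comm])) (Int.ediv_lt_of_lt_mul W0
    (by rwa [mul_comm]))
  simp only [sg, Int.add_mul_emod_self_left, Int.add_mul_ediv_left _ _ W0.ne', this.1, this.2, and_self,
    show fx L r' = fx L r from funext fun x => by simp only [fx, e],
    show fx L (r' + 1) = fx L (r + 1) from funext fun x => by simp only [fx, e']]

lemma dv {p k o y : ℤ} (h1 : p * k + o ≤ y) (h2 : y < p * (k + 1) + o) : p ∣ y - o ↔ y = p * k + o :=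
  ⟨fun ⟨c, h⟩ => by
    have : 0 < p := by linarith
    obtain rfl : c = k := le_antisymm (Int.le_of_lt_add_one (lt_of_mul_lt_mul_left (a := p)
      (by linarith) this.le)) (le_of_mul_le_mul_left (by linarith) this)
    linarith, fun h => ⟨k, by linarith⟩⟩

lemma vals {i t : ℤ} (t0 : 0 ≤ t) (t1 : t < L) (i0 : 1 ≤ i) (i1 : i < L) {k : ℤ} (hk : k = L * i + t) :
    fx L 1 (2 * k) = 2 * L + 3 - (if t = 0 then w L else 0) ∧ fx L 1 (2 * k + 1) = 2 * L + 3 ∧
    fx L 2 (2 * k) = 2 * L + 2 + (if 1 ≤ t ∧ t ≤ i then w L else 0) ∧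
    fx L 2 (2 * k + 1) = 2 * L + 2 - (if t ≤ i then w L else 0) ∧
    fx L 2 (2 * k + 2) = 2 * L + 2 + (if t < i then w L else 0) ∧
    fx L 3 (2 * k + 1) = 2 * L + 1 - (if t = i then w L else 0) ∧ fx L 3 (2 * k + 2) = 2 * L + 1 := by
  have m : ∀ k i t, 0 ≤ t → t < L → k = L * i + t → k / L = i ∧ k % L = t := fun k i t a b c =>
    (Int.ediv_emod_unique (by omega)).2 ⟨by linarith, a, b⟩
  obtain ⟨m1, m2⟩ := m k i t t0 t1 hk
  have a1 : 2 * L ∣ 2 * k - 0 ↔ t = 0 := (dv (k := i) (by linarith) (by linarith)).trans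
    ⟨fun h => by linarith, fun h => by linarith⟩
  have a2 : ¬2 * L ∣ 2 * k + 1 - 0 := fun h => by have := Dvd.dvd.trans ⟨L, rfl⟩ h; omega
  have a3 : ¬2 * (L + 1) ∣ 2 * k + 2 - 1 := fun h => by have := Dvd.dvd.trans ⟨L + 1, rfl⟩ h; omega
  have a4 : 2 * (L + 1) ∣ 2 * k + 1 - 1 ↔ t = i := by
    rcases le_or_gt i t with q | q
    · exact (dv (k := i) (by linarith) (by linarith)).trans ⟨fun h => by linarith, fun h => by linarith⟩
    · exact (dv (k := i - 1) (by linarith) (by linarith)).trans ⟨fun h => by linarith, fun h => by linarith⟩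
  have a5 : (1 ≤ (k + 1) % L ∧ (k + 1) % L ≤ (k + 1) / L) ↔ t < i := by
    rcases (Int.add_one_le_of_lt t1).eq_or_lt with q | q
    · have := m (k + 1) (i + 1) 0 le_rfl (by omega) (by linarith)
      omega
    · have := m (k + 1) i (t + 1) (by omega) q (by linarith)
      omega
  simp only [fx, a1, a2, a3, a4, show 2 * k / 2 = k by omega, show (2 * k + 1) / 2 = k by omega,
    show (2 * k + 2) / 2 = k + 1 by omega, show 2 * k % 2 = 0 by omega, show (2 * k + 1) % 2 = 1 by omega,
    show (2 * k + 2) % 2 = 0 by omega, m1, m2, true_and, a5]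
  simp

def rp (L i r t : ℤ) : ℤ := if r = 0 ∨ r = 3 then i else L * i + t

lemma main (n : ℕ) : ∃ S : Set (Set ℂ), S.Finite ∧ S.ncard ≤ 16 ∧ S.Nonempty ∧ ¬Tiles S ∧
    ∀ P ∈ S, IsPatch S {P} ∧ Surr S n {P} := by
  obtain ⟨i, hi⟩ : ∃ i : ℤ, i = 4 * n + 8 := ⟨_, rfl⟩
  obtain ⟨L, hL⟩ : ∃ L : ℤ, L = 2 * i := ⟨_, rfl⟩
  have L0 : 0 < L := by omega
  have W0 := W0 L0
  have p : ∀ r, 0 < per L r ∧ per L r ≤ 2 * (L + 1) := fun r => by unfold per; split_ifs <;> omega
  have b1 : ∀ r k, bd L r (k + 1) = bd L r k + W L * per L r := fun r k => by unfold bd; ring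
  let B := fun q : ℤ × ℤ => brick (sg L) q.1 (bd L q.1 (rp L i q.1 q.2)) (bd L q.1 (rp L i q.1 q.2 + 1))
  let I : Finset (ℤ × ℤ) := {0, 1, 2, 3} ×ˢ {0, 1, i, i + 1}
  have mI : ∀ r t, (r, t) ∈ I ↔ (r = 0 ∨ r = 1 ∨ r = 2 ∨ r = 3) ∧ (t = 0 ∨ t = 1 ∨ t = i ∨ t = i + 1) := by
    simp [I]
  refine ⟨B '' I, I.finite_toSet.image _, (Set.ncard_image_le I.finite_toSet).trans ?_,
    ⟨_, (0, 0), by simp [mI], rfl⟩, no_tiling (D := (W L * (2 * (L + 1))).toNat + 2)
      (M := 2 * (W L * (2 * (L + 1))).toNat) ?_, ?_⟩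
  · rw [Set.ncard_coe_finset, card_product]
    exact Nat.mul_le_mul card_le_four card_le_four
  · rintro _ ⟨⟨r, t⟩, h, rfl⟩
    obtain ⟨h1, h2⟩ := (mI r t).1 h
    refine good sg_le (by rw [b1]; nlinarith [p r]) (by
      rw [b1, Int.toNat_of_nonneg (by positivity)]; nlinarith [p r]) ?_
    have e : bd L r (rp L i r t + 1) = W L * (per L r * rp L i r t + off r + (per L r).toNat) := by
      rw [Int.toNat_of_nonneg (p r).1.le, bd]; ring
    simp only
    rw [e, bd, sum_sg L0, sum_sg L0, Int.toNat_of_nonneg (p r).1.le]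
    have s : ∀ p k o c : ℤ, 0 < p → ∑ y ∈ Ico (p * k + o) (p * k + o + p),
        (c - if p ∣ y - o then w L else 0) = p * c - w L := fun p k o c h => by
      rw [sum_congr rfl (g := fun y => c - if y = p * k + o then w L else 0) fun y hy => by
        simp only [dv (mem_Ico.1 hy).1 (by linarith [mem_Ico.1 hy])]]
      simp [h, h.le]
    have v := vals (L := L) (i := i) (t := t) (by omega) (by omega) (by omega) (by omega) rfl
    have two : ∀ (x : ℤ) (f : ℤ → ℤ), ∑ y ∈ Ico x (x + 2), f y = f x + f (x + 1) := fun x f => by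
      rw [show Ico x (x + 2) = {x, x + 1} by ext; simp; omega, sum_pair (by omega)]
    rcases h1 with rfl | rfl | rfl | rfl
    · simp only [fx, per, off, zero_add, Int.reduceMod, one_ne_zero, if_true, if_false, Int.reduceLT]
      rw [s _ _ _ _ (by omega)]
      simp only [w, sum_const_zero]
      nlinarith
    · simp only [two, per, off, rp, Int.reduceMod, Int.reduceAdd, Int.reduceEq, Int.reduceLT, if_true,
        if_false, or_self, add_zero, v]
      split_ifs <;> omega
    · simp only [two, per, off, rp, Int.reduceMod, Int.reduceAdd, Int.reduceEq, Int.reduceLT, if_true,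
        if_false, or_self]
      simp only [add_assoc, Int.reduceAdd, v]
      split_ifs <;> omega
    · simp only [fx, per, off, Int.reduceMod, Int.reduceAdd, Int.reduceEq, if_true, if_false, Int.reduceLT]
      rw [s _ _ _ _ (by omega)]
      simp only [w, sum_const_zero]
      nlinarith
  rintro _ ⟨⟨r0, t0⟩, h, rfl⟩
  obtain ⟨h1, h2⟩ := (mI r0 t0).1 h
  refine config sg_le (D := W L * (2 * (L + 1))) (fl := fun r x => (x - W L * off r) / (W L * per L r))
    (fun r k => by rw [b1]; nlinarith [p r]) (fun r k => by rw [b1]; nlinarith [p r]) (fun r x => ?_)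
    fun r k k1 k2 => ?_
  · have q := mul_pos W0 (p r).1
    have := Int.mul_ediv_self_le (x := x - W L * off r) q.ne'
    have := Int.lt_mul_ediv_self_add (x := x - W L * off r) q
    unfold bd
    constructor <;> linarith
  have c : L * L ≤ per L r0 * rp L i r0 t0 + off r0 ∧
      per L r0 * (rp L i r0 t0 + 1) + off r0 ≤ L * L + 3 * L + 3 := by
    rcases h1 with rfl | rfl | rfl | rfl <;> simp [per, off, rp] <;> constructor <;>
      rcases h2 with rfl | rfl | rfl | rfl <;> nlinarith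
  have k1 : L * L - (2 * n + 1) * (2 * (L + 1)) ≤ per L r * k + off r :=
    le_of_mul_le_mul_left (by unfold bd at k1; nlinarith) W0
  have k2 : per L r * (k + 1) + off r ≤ L * L + 3 * L + 3 + (2 * n + 1) * (2 * (L + 1)) :=
    le_of_mul_le_mul_left (by unfold bd at k2; nlinarith) W0
  by_cases q : r % 4 = 0 ∨ r % 4 = 3
  · refine ⟨_, ⟨(r % 4, 0), (mI _ _).2 (by omega), rfl⟩, sh L0 (by simp) fun y _ _ => ?_⟩
    rcases q with q | q <;> simp [q, fx, per, add_sub_right_comm, dvd_add_left]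
  have t0 := Int.emod_nonneg k L0.ne'
  have t1 := Int.emod_lt_of_pos k L0
  have hk := (Int.mul_ediv_add_emod k L).symm
  have pr : per L r = 2 := by unfold per; split_ifs <;> omega
  have o : 0 ≤ off r ∧ off r ≤ 1 := by unfold off; split_ifs <;> omega
  rw [pr] at k1 k2
  have i0 : 1 ≤ k / L := Int.le_ediv_of_mul_le L0 (by nlinarith)
  have i1 : k / L < L := Int.ediv_lt_of_lt_mul L0 (by nlinarith)
  have v := vals t0 t1 i0 i1 hk
  generalize k % L = t at *
  generalize k / L = j at *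
  obtain ⟨u, u0, u1⟩ : ∃ u, (u = 0 ∨ u = 1 ∨ u = i ∨ u = i + 1) ∧ (u = 0 ↔ t = 0) ∧ (u < i ↔ t < j) ∧
      (u = i ↔ t = j) := ⟨if t = 0 then 0 else if t < j then 1 else if t = j then i else i + 1, by
        split_ifs <;> omega⟩
  have v' := vals (L := L) (i := i) (t := u) (by omega) (by omega) (by omega) (by omega) rfl
  refine ⟨_, ⟨(r % 4, u), (mI _ _).2 (by omega), rfl⟩, sh L0 (by simp) fun y y1 y2 => ?_⟩
  obtain q | q : r % 4 = 1 ∨ r % 4 = 2 := by omega
  all_goals simp only [q, per, off, rp, Int.reduceMod, Int.reduceAdd, Int.reduceEq, Int.reduceLT,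
    if_true, if_false, or_self] at y1 y2 ⊢
  · obtain rfl | rfl : y = 2 * (L * i + u) ∨ y = 2 * (L * i + u) + 1 := by omega
    · rw [show 2 * (L * i + u) + _ = 2 * k by ring]
      simp only [v, v']
      split_ifs <;> first | omega | simp
    · rw [show 2 * (L * i + u) + 1 + _ = 2 * k + 1 by ring]
      simp only [v, v']
      split_ifs <;> first | omega | simp
  · obtain rfl | rfl : y = 2 * (L * i + u) + 1 ∨ y = 2 * (L * i + u) + 2 := by omega
    · rw [show 2 * (L * i + u) + 1 + _ = 2 * k + 1 by ring]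
      simp only [v, v']
      split_ifs <;> first | omega | simp
    · rw [show 2 * (L * i + u) + 2 + _ = 2 * k + 2 by ring]
      simp only [v, v']
      split_ifs <;> first | omega | simp

end Pool.Agent.H.MP_ae4adf_co
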